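import Pool.Agent.K6.H94.FG.Ghc

/-!
# Classes in a direct factor of bounded amplitude of the motive of `Z`, times the powers of `X`
-/

set_option autoImplicit false
set_option linter.unusedSectionVars false

open CategoryTheory AlgebraicGeometry TensorProduct

universe u

namespace Pool.Agent.K6.H94.NX.Geo

open Module
open Pool.Agent.H914 Pool.Agent.H914.VarClass Pool.Agent.H914.VarClass.Obj
  Pool.Agent.H914.WeilCohomology
open Pool.Agent.Y133.Half Pool.Agent.Y121.AH Pool.Agent.N996.BP Pool.Agent.N996.BP.Geo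
open Pool.Agent.K6.H94.FG.Geo

variable {k : Type u} [Field k] {𝒱 : VarClass k} {ops : CycleOps 𝒱}
variable {T : HodgeTheory ops} {X Y Z A B : 𝒱.Obj}

/-- Pull-backs are given by classes of the system. -/
lemma exists_graph (S : Sys T.W) (f : X ⟶ Y) :
    ∃ γ ∈ S.C (Y.prod X), T.W.corr γ = (T.W.map f).toLinearMap :=
  Sys.mem_Op.1 (Sys.Op.map (S := S) f)

lemma corr_sum {r : ℕ} (f : Fin r → T.W.H (A.prod B)) :
    T.W.corr (∑ i, f i) = ∑ i, T.W.corr (f i) := by
  have h4 : ∀ z, T.W.corr z = corrL T.W A B z := fun z => rfl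
  rw [h4, map_sum]
  rfl

lemma corr_cmp {S : Sys T.W} (x : T.W.H (Z.prod A)) {β : T.W.H (A.prod B)}
    (hβ : β ∈ S.C (A.prod B)) : T.W.corr (FG.Geo.cmp x β) = T.W.corr β ∘ₗ T.W.corr x := by
  rw [FG.Geo.cmp, corr_comp' _ (S.even hβ)]

/-- The class `x` on `Z × B` belongs to the part cut out by `p`. -/
def Fac (p : T.W.H (Z.prod Z)) (x : T.W.H (Z.prod B)) : Prop :=
  T.W.corr x ∘ₗ T.W.corr p = T.W.corr x

lemma Fac.cmp {S : Sys T.W} {p : T.W.H (Z.prod Z)} {x : T.W.H (Z.prod A)} (h : Fac p x)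
    {β : T.W.H (A.prod B)} (hβ : β ∈ S.C (A.prod B)) : Fac p (FG.Geo.cmp x β) := by
  rw [Fac, corr_cmp x hβ, LinearMap.comp_assoc, h]

/-- **Hodge classes in the part of `Z × X ^ n` cut out by a projector with image of bounded level factor
through `Z × X ^ N`.** -/
theorem cmp_idp {ψ : LinearMap.BilinForm T.W.K (T.W.H X)}
    (hψ : IsPHS (tauT T) (Fx T X) ψ X.dim) (w : ℕ) : ∃ N₀ : ℕ, ∀ N, N₀ ≤ N → ∀ n,
    ∃ (r : ℕ) (α : Fin r → T.W.H ((pw X N).prod (pw X n)))
      (β : Fin r → T.W.H ((pw X n).prod (pw X N))),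
      (∀ i, α i ∈ (hodgePred T).sys.C ((pw X N).prod (pw X n))) ∧
      (∀ i, β i ∈ (hodgePred T).sys.C ((pw X n).prod (pw X N))) ∧
      ∀ (Z : 𝒱.Obj) (p : T.W.H (Z.prod Z)),
        (∀ ζ : T.W.H Z, Wts T Z w (em T.W ℂ (T.W.corr p ζ))) →
        ∀ x ∈ (hodgePred T).sys.C (Z.prod (pw X n)), Fac p x →
          ∑ i, FG.Geo.cmp (FG.Geo.cmp x (β i)) (α i) = x := by
  obtain ⟨N₀, h⟩ := op_id hψ (0 + w)
  refine ⟨N₀, fun N hN n => ?_⟩
  by_cases hn : N ≤ n
  · obtain ⟨r, a, b, ha, hb, hab⟩ := h N hN n hn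
    choose α hα hα' using fun i => Sys.mem_Op.1 (ha i)
    choose β hβ hβ' using fun i => Sys.mem_Op.1 (hb i)
    refine ⟨r, α, β, hα, hβ, fun Z p hp x hx hF => ?_⟩
    have hfix : ∀ y ∈ Submodule.span T.W.K {x}, (∀ t : ℂ, t ≠ 0 →
        lop T t (Z.prod (pw X n)) (em T.W ℂ y) = em T.W ℂ y) ∧ Fac p y := by
      intro y hy
      obtain ⟨r, rfl⟩ := Submodule.mem_span_singleton.1 hy
      refine ⟨inv_iff.2 (Submodule.smul_mem _ _ hx), ?_⟩
      rw [Fac, corr_smul, LinearMap.smul_comp, hF]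
    have hstab : Stab T (Z.prod (pw X n)) (Submodule.span T.W.K {x}) := by
      intro y hy t ht
      rw [(hfix y hy).1 t ht]
      exact Submodule.subset_span ⟨y, hy, rfl⟩
    have hw : ∀ y ∈ cont (Submodule.span T.W.K {x}), Wts T (pw X n) (0 + w) (em T.W ℂ y) := by
      intro y hy
      rw [cont] at hy
      induction hy using Submodule.span_induction with
      | mem y hy =>
        obtain ⟨x', hx', ζ, rfl⟩ := hy
        rw [← (hfix x' hx').2, LinearMap.comp_apply, ← em_corr]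
        refine Wts.corr ?_ (hp ζ)
        refine ⟨fun _ => em T.W ℂ x', fun t ht => ?_⟩
        rw [(hfix x' hx').1 t ht]
        simp
      | zero => rw [em_zero]; exact Wts.zero
      | add a b _ _ ha hb => rw [em_add]; exact ha.add hb
      | smul r a _ ha => rw [em_smul]; exact ha.smul _
    apply corr_eq_iff (W := T.W)
    apply LinearMap.ext
    intro ζ
    rw [corr_sum, LinearMap.sum_apply]
    have h6 : ∀ i, T.W.corr (FG.Geo.cmp (FG.Geo.cmp x (β i)) (α i)) ζ = a i (b i (T.W.corr x ζ)) := fun i => by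
      rw [corr_cmp _ (hα i), corr_cmp _ (hβ i), hα', hβ']
      rfl
    rw [Finset.sum_congr rfl fun i _ => h6 i]
    exact hab (cont (Submodule.span T.W.K {x})) (stab_cont hstab) hw _
      (Submodule.subset_span ⟨x, Submodule.mem_span_singleton_self x, ζ, rfl⟩)
  · obtain ⟨β, hβ, hβ'⟩ := exists_graph (hodgePred T).sys (down X (show n ≤ N by omega))
    obtain ⟨α, hα, hα'⟩ := exists_graph (hodgePred T).sys (up X n N)
    refine ⟨1, fun _ => α, fun _ => β, fun _ => hα, fun _ => hβ, fun Z p _ x _ _ => ?_⟩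
    rw [Fin.sum_univ_one]
    apply corr_eq_iff (W := T.W)
    rw [corr_cmp _ hα, corr_cmp _ hβ, hα', hβ']
    apply LinearMap.ext
    intro ζ
    change T.W.map (up X n N) (T.W.map (down X _) (T.W.corr x ζ)) = _
    rw [← T.W.map_comp, up_down, T.W.map_id]

/-- The amplitude of the image of `q`. -/
def AmpLE (q : T.W.H (Z.prod Z)) (w : ℕ) : Prop :=
  ∀ n : ℤ, cs (LinearMap.range (T.W.corr q)) ⊓
    (⨆ r : {r : ℤ × ℤ // r.1 - r.2 = n}, T.pq Z r.1.1 r.1.2) ≠ ⊥ → |n| ≤ w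

lemma corr_mem_cs (q : T.W.H (A.prod B)) (z : (CW T).H A) :
    (CW T).corr (em T.W ℂ q) z ∈ cs (LinearMap.range (T.W.corr q)) := by
  have h := em_span_top (T := T) z
  induction h using Submodule.span_induction with
  | mem z hz =>
    obtain ⟨u, rfl⟩ := hz
    rw [em_corr]
    exact Submodule.subset_span ⟨_, LinearMap.mem_range_self _ u, rfl⟩
  | zero => rw [map_zero]; exact Submodule.zero_mem _
  | add a b _ _ ha hb => rw [map_add]; exact Submodule.add_mem _ ha hb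
  | smul r a _ ha => rw [map_smul]; exact Submodule.smul_mem _ _ ha

lemma corr_mem_pq {q : T.W.H (A.prod B)} (hq : q ∈ (hodgePred T).sys.C (A.prod B)) {c d : ℤ}
    {z : (CW T).H A} (hz : z ∈ T.pq A c d) : (CW T).corr (em T.W ℂ q) z ∈
      ⨆ r : {r : ℤ × ℤ // r.1 - r.2 = c - d}, T.pq B r.1.1 r.1.2 := by
  refine ClassPred.sp_ind (Q := hodgePred T) (q := fun q => (CW T).corr (em T.W ℂ q) z ∈
      ⨆ r : {r : ℤ × ℤ // r.1 - r.2 = c - d}, T.pq B r.1.1 r.1.2) ?_ ?_ ?_ hq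
  · intro j x hx
    have hx' : IsHodge T (A.prod B) j x := hx
    rw [corr_apply]
    have h1 := T.dec.push (snd A B) (T.dec.mul hx'.2 (T.dec.map (fst A B) hz))
    exact Submodule.mem_iSup_of_mem (p := fun r : {r : ℤ × ℤ // r.1 - r.2 = c - d} =>
      T.pq B r.1.1 r.1.2) ⟨((j : ℤ) + c + B.dim - (A.prod B).dim,
        (j : ℤ) + d + B.dim - (A.prod B).dim), by ring⟩ h1
  · rw [em_zero, corr_zero, LinearMap.zero_apply]; exact Submodule.zero_mem _
  · intro a b ha hb
    rw [em_add, corr_add, LinearMap.add_apply]; exact Submodule.add_mem _ ha hb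

lemma wts_pq {a b : ℤ} {w : ℕ} {y : (CW T).H Y} (h : ∀ t : ℂ, t ≠ 0 →
    lop T t Y y = (cc T t) ^ (a - b) • y) (hw : |a - b| ≤ w) : Wts T Y w y := by
  rw [abs_le] at hw
  refine ⟨fun k => if k = a - b then y else 0, fun t ht => ?_⟩
  rw [h t ht, Finset.sum_eq_single (a - b)]
  · simp only [if_true]
  · intro j _ hj
    simp only [hj, if_false, smul_zero]
  · intro hn
    exact absurd (Finset.mem_Icc.2 hw) hn

/-- The transposed projector has image of bounded level. -/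
theorem wts_amp {q : T.W.H (Z.prod Z)} (hq : q ∈ (hodgePred T).sys.C (Z.prod Z)) {w : ℕ}
    (h : AmpLE q w) (ζ : T.W.H Z) :
    Wts T Z w (em T.W ℂ (T.W.corr (T.W.map (swap Z Z) q) ζ)) := by
  have hp : T.W.map (swap Z Z) q ∈ (hodgePred T).sys.C (Z.prod Z) := Sys.map _ _ hq
  rw [← em_corr]
  refine pq_ind T (p := fun z => Wts T Z w ((CW T).corr (em T.W ℂ (T.W.map (swap Z Z) q)) z))
    ?_ (fun a b ha hb => by rw [map_add]; exact ha.add hb) (by rw [map_zero]; exact Wts.zero)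
      (em T.W ℂ ζ)
  intro a b z hz
  have hl : ∀ t : ℂ, t ≠ 0 → lop T t Z ((CW T).corr (em T.W ℂ (T.W.map (swap Z Z) q)) z) =
      (cc T t) ^ (a - b) • (CW T).corr (em T.W ℂ (T.W.map (swap Z Z) q)) z := by
    intro t ht
    rw [lop_corr ht, lop_pq hz, map_smul, inv_iff.2 hp t ht]
  by_cases h0 : (CW T).corr (em T.W ℂ (T.W.map (swap Z Z) q)) z = 0
  · rw [h0]; exact Wts.zero
  refine wts_pq (a := a) (b := b) hl ?_
  by_contra hcon
  apply h0
  apply (CW T).tr_ext
  intro z'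
  rw [zero_mul, map_zero]
  refine pq_ind T (p := fun z' => (CW T).tr Z
    ((CW T).corr (em T.W ℂ (T.W.map (swap Z Z) q)) z * z') = 0) ?_
      (fun a b ha hb => by rw [mul_add, map_add, ha, hb, add_zero]) (by rw [mul_zero, map_zero]) z'
  intro c d z' hz'
  by_contra h1
  -- the weights
  have h2 : a - b + (c - d) = 0 := by
    have h3 := tr_lop (T := T) (t := 2) ((CW T).corr (em T.W ℂ (T.W.map (swap Z Z) q)) z * z')
    rw [lop_mul two_ne_zero, hl 2 two_ne_zero, lop_pq hz', smul_mul_smul_comm, map_smul,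
      smul_eq_mul, ← zpow_add₀ (cc_ne T two_ne_zero)] at h3
    have h4 : (cc T 2) ^ (a - b + (c - d)) = 1 := mul_right_cancel₀ h1 (by rw [h3, one_mul])
    have h5 : ((2 : ℂ)) ^ (a - b + (c - d)) = 1 := h4
    have h6 : ‖(2 : ℂ)‖ ^ (a - b + (c - d)) = 1 := by rw [← norm_zpow, h5, norm_one]
    rw [Complex.norm_ofNat] at h6
    exact (zpow_eq_one_iff_right₀ (by norm_num) (by norm_num)).1 h6
  have h3 : (CW T).corr (em T.W ℂ q) z' ≠ 0 := by
    intro h4
    apply h1
    rw [tr_corr' (em_PH ((hodgePred T).sys.even hp)), em_map, swap_swap, h4, mul_zero, map_zero]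
  have h4 := h (c - d) ((Submodule.ne_bot_iff _).2 ⟨_, ⟨corr_mem_cs q z', corr_mem_pq hq hz'⟩, h3⟩)
  apply hcon
  have h5 : a - b = -(c - d) := by omega
  rw [h5, abs_neg]
  exact h4

/-- The bounded power theorem. -/
theorem bounded_all {ψ : LinearMap.BilinForm T.W.K (T.W.H X)}
    (hψ : IsPHS (tauT T) (Fx T X) ψ X.dim) {N : ℕ} (hN : expo (finrank T.W.K (T.W.H X)) - 1 ≤ N)
    (h1 : (hodgePred T).sys.C (pw X N) ≤ (algSys T.W).C (pw X N)) (m : ℕ) :
    (hodgePred T).sys.C (pw X m) ≤ (algSys T.W).C (pw X m) :=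
  bounded hψ (algSys T.W) (fun _ => ClassPred.alg_le (Q := hodgePred T))
    (mono_pw (S' := (hodgePred T).sys) hN h1) m

end Pool.Agent.K6.H94.NX.Geo
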