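import Pool.Agent.Y121.AHS.Defs
import Pool.Agent.Y133.Half.PwDefs

/-!
# Admissible subcategories in a Hodge theory: definitions

In the intended use the varieties are the smooth projective ones over the field of complex numbers and
`T` is the theory `X ↦ H(X, ℚ)`. An object `E` of `D^perf(Z)` is considered through its Mukai vector
`v(E) = ch(E) · td(Z)^(1/2)`, an algebraic class on `Z` with components in all even degrees, and a functor
`D^perf(A) → D^perf(B)` given by a kernel `P` on `A × B` acts on the Mukai vectors, and on the topological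
K-theory and the Hochschild homology, by the correspondence with the Mukai vector of `P`.
-/

set_option autoImplicit false

open CategoryTheory AlgebraicGeometry

universe u

namespace Pool.Agent.K6.H94.NX

open Pool.Agent.H914 Pool.Agent.H914.VarClass Pool.Agent.H914.VarClass.Obj
  Pool.Agent.H914.WeilCohomology
open Pool.Agent.Y121.AHS
open Pool.Agent.Y133.Half (pw)

section Gen

variable {K A B : Type} [Field K] [Ring A] [Ring B] [Algebra K A] [Algebra K B]

/-- The linear span. -/
def spn (K : Type) {A : Type} [Field K] [Ring A] [Algebra K A] (s : Set A) : Submodule K A :=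
  Submodule.span K s

/-- The product `f x · g y`. -/
def mulMap {C : Type} [Ring C] [Algebra K C] (f : A →ₐ[K] C) (g : B →ₐ[K] C) (x : A) (y : B) : C :=
  f x * g y

/-- The value at `1`. -/
def valOne (f : A →ₗ[K] B) : B := f 1

/-- The value of a linear map. -/
def val (f : A →ₗ[K] B) (x : A) : B := f x

/-- The value of a homomorphism of groups. -/
def valAdd {C : Type u} [AddCommGroup C] (f : C →+ A) (x : C) : A := f x

/-- The sum of the elements `f i` is `y`. -/
def SumIs {r : ℕ} (f : Fin r → A) (y : A) : Prop := ∑ i, f i = y

/-- The elements `x` of `S` with `f x = x` are in `R`. -/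
def FixedIn (f : A → A) (S R : Submodule K A) : Prop := ∀ x ∈ S, f x = x → x ∈ R

/-- The elements `x` of `R` with `f x = x` which are orthogonal to `R` for the form `tr (x y)` are zero. -/
def FixedOrthZero (f : A → A) (R : Submodule K A) (tr : A →ₗ[K] K) : Prop :=
  ∀ x ∈ R, f x = x → (∀ y ∈ R, tr (x * y) = 0) → x = 0

/-- There are `x` and `y` in `R` with `f x = x` and `tr (x y) ≠ 0`. -/
def FixedPair (f : A → A) (R : Submodule K A) (tr : A →ₗ[K] K) : Prop :=
  ∃ x ∈ R, f x = x ∧ ∃ y ∈ R, tr (x * y) ≠ 0

end Gen

variable {k : Type u} [Field k] {𝒱 : VarClass k} {ops : CycleOps 𝒱}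

/-- The rational subspaces of `H(X)`. -/
abbrev RSub (T : HodgeTheory ops) (X : 𝒱.Obj) : Type := Submodule T.W.K (T.W.H X)

/-- The complex subspaces of `H(X, ℂ)`. -/
abbrev CSub (T : HodgeTheory ops) (X : 𝒱.Obj) : Type := Submodule ℂ (HL T.W ℂ X)

/-- The complex subspace `V ⊗ ℂ` of `H(X, ℂ)` given by the rational subspace `V`. -/
noncomputable def complexSpan {T : HodgeTheory ops} {X : 𝒱.Obj} (V : RSub T X) : CSub T X :=
  Submodule.span ℂ {y | ∃ x ∈ V, emL T.W ℂ x = y}

/-- The linear combinations of the classes of algebraic cycles of all codimensions on `Y`: the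
space spanned by the Mukai vectors of the objects of `D^perf(Y)`. -/
noncomputable def AlgClasses (T : HodgeTheory ops) (Y : 𝒱.Obj) : RSub T Y :=
  spn T.W.K {x | ∃ (j : ℕ) (z : Y.Cycles), Y.IsCyc j z ∧ valAdd (T.W.cl Y) z = x}

/-- The sums of the Hodge classes of all degrees on `Y`: the Hodge classes of the topological K-theory
of `Y`, with rational coefficients. -/
noncomputable def HodgeClasses (T : HodgeTheory ops) (Y : 𝒱.Obj) : RSub T Y :=
  spn T.W.K {x | ∃ j : ℕ, IsHodge T Y j x}

/-- The correspondence `H(A) → H(B)`, `x ↦ pr₂_* (c · pr₁^* x)`, given by the class `c` on `A × B`. -/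
noncomputable def cor (T : HodgeTheory ops) {A B : 𝒱.Obj} (c : T.W.H (A.prod B)) (x : T.W.H A) :
    T.W.H B := val (T.W.corr c) x

/-- The Hodge conjecture for `Y`: the Hodge classes on `Y` are algebraic. -/
def HodgeConj (T : HodgeTheory ops) (Y : 𝒱.Obj) : Prop :=
  FixedIn id (HodgeClasses T Y) (AlgClasses T Y)

/-- The classes on `Z × Z`, considered as the Mukai vectors of kernels. -/
abbrev Kernel (T : HodgeTheory ops) (Z : 𝒱.Obj) : Type := T.W.H (Z.prod Z)

variable (T : HodgeTheory ops) {Z Y : 𝒱.Obj}

/-- An admissible subcategory `𝒞` of `D^perf(Z)`, as far as it enters the conjectures: the Mukai vector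
`q` of the kernel on `Z × Z` of the projection functor `D^perf(Z) → 𝒞`. It is a combination of classes of
algebraic cycles, and the correspondence is idempotent. (More generally such a `q` is a direct factor
of the noncommutative Chow motive of `Z`, up to homological equivalence.) -/
structure IsAdmissible (q : Kernel T Z) : Prop where
  alg : q ∈ AlgClasses T (Z.prod Z)
  idem : ∀ x, cor T q (cor T q x) = cor T q x

/-- The topological K-theory (of degrees zero and one) of `𝒞` with rational coefficients, a subspace of
`H(Z)`: the classes fixed by the projector. -/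
noncomputable def Ktop (q : Kernel T Z) : RSub T Z := spn T.W.K {x | cor T q x = x}

/-- The Hochschild homology `HH_n(𝒞)`, by the Hochschild-Kostant-Rosenberg isomorphism a subspace of
`⨁ H^(a,b)(Z)`, the sum over all `a`, `b` with `a - b = n`. -/
noncomputable def HH (q : Kernel T Z) (n : ℤ) : CSub T Z :=
  complexSpan (Ktop T q) ⊓ ⨆ r : {r : ℤ × ℤ // r.1 - r.2 = n}, T.pq Z r.1.1 r.1.2

/-- The Hochschild homology `HH_n(𝒞)` vanishes for `|n| > w`. -/
def AmplitudeLE (q : Kernel T Z) (w : ℕ) : Prop := ∀ n : ℤ, HH T q n ≠ ⊥ → |n| ≤ w

/-- There are an object of `𝒞` and an object of `D^perf(Z)` with nonzero Euler pairing: for some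
algebraic classes `x` and `y` on `Z`, where `x` is fixed by the projector, `∫ x y` is not zero. -/
def HasObject (q : Kernel T Z) : Prop := FixedPair (cor T q) (AlgClasses T Z) (T.W.tr Z)

/-- **The noncommutative Hodge conjecture** for the admissible subcategory `𝒞` of `D^perf(Z)`: the Hodge
classes in the topological K-theory of `𝒞` (the Hodge classes on `Z` fixed by the projector) are linear
combinations of classes of objects of `𝒞`, that is algebraic. (If the class `x` of the topological
K-theory of `𝒞` is a combination of Mukai vectors `v(E)` of objects of `D^perf(Z)`, it is also the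
combination of the Mukai vectors of their projections to `𝒞`.) -/
def NCHodge (q : Kernel T Z) : Prop := FixedIn (cor T q) (HodgeClasses T Z) (AlgClasses T Z)

/-- **The noncommutative standard conjecture of type `D`** for the admissible subcategory `𝒞` of
`D^perf(Z)`: a numerically trivial class `x` of `K_0(𝒞)` is homologically trivial. (The classes of
`K_0(𝒞)` are the algebraic classes `x` on `Z` fixed by the projector. The Euler pairings of `x` with all
objects of `𝒞` vanish if and only if its Euler pairings with all objects of `D^perf(Z)` vanish, by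
adjunction, and if and only if `∫ x y = 0` for all algebraic classes `y` on `Z`, by the theorem of
Riemann-Roch.) -/
def NCStandardD (q : Kernel T Z) : Prop := FixedOrthZero (cor T q) (AlgClasses T Z) (T.W.tr Z)

/-- The admissible subcategory `𝒞 ⊠ D^perf(Y)` of `D^perf(Z × Y)`: the Mukai vector of the kernel of the
projection functor is the external product of `q` and the class of the diagonal of `Y`, on
`(Z × Y) × (Z × Y)`. -/
noncomputable def box (q : Kernel T Z) (Y : 𝒱.Obj) : Kernel T (Z.prod Y) :=
  mulMap (T.W.map (Obj.lift (fst (Z.prod Y) (Z.prod Y) ≫ fst Z Y)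
      (snd (Z.prod Y) (Z.prod Y) ≫ fst Z Y)))
    (T.W.map (Obj.lift (fst (Z.prod Y) (Z.prod Y) ≫ snd Z Y)
      (snd (Z.prod Y) (Z.prod Y) ≫ snd Z Y))) q (valOne (T.W.push (diag Y)))

/-- The noncommutative motive of the admissible subcategory `𝒟` of `D^perf(Y)`, with projector `p`, comes
from the categories `𝒞 ⊠ D^perf(X ^ (m + 1))`: the projector is, on the topological K-theory of `𝒟`, a
finite sum of compositions `𝒟 → 𝒞 ⊠ D^perf(X ^ (m + 1)) → 𝒟` of correspondences given by algebraic
classes (Mukai vectors of kernels). For instance, this holds if the motive of `𝒟` is a direct factor of a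
sum of the motives of these categories, and for all `𝒟 = 𝒞 ⊠ 𝒟'`, where `𝒟'` is an admissible subcategory
of `D^perf(Y')` and the motive of `Y'` comes from the powers of `X`. -/
def FromBoxes (q : Kernel T Z) (X : 𝒱.Obj) (p : Kernel T Y) : Prop :=
  ∃ (r : ℕ) (m : Fin r → ℕ) (u : ∀ i, T.W.H (Y.prod (Z.prod (pw X (m i)))))
    (v : ∀ i, T.W.H ((Z.prod (pw X (m i))).prod Y)),
    (∀ i, u i ∈ AlgClasses T _ ∧ v i ∈ AlgClasses T _) ∧
    ∀ y, cor T p y = y →
      SumIs (fun i => cor T (v i) (cor T (box T q (pw X (m i))) (cor T (u i) y))) y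

end Pool.Agent.K6.H94.NX
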