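import Pool.Agent.K6.H94.NX.Core
import Pool.Agent.K6.H94.NX.Defs
import Pool.Agent.K6.H94.FG.GFin

/-!
# The noncommutative Hodge conjecture and the noncommutative standard conjecture of type `D`
-/

set_option autoImplicit false
set_option linter.unusedSectionVars false

open CategoryTheory AlgebraicGeometry TensorProduct

universe u

namespace Pool.Agent.K6.H94.NX

open Module
open Pool.Agent.H914 Pool.Agent.H914.VarClass Pool.Agent.H914.VarClass.Obj
  Pool.Agent.H914.WeilCohomology Pool.Agent.Y121 Pool.Agent.Y121.AHS Pool.Agent.N996.BP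
open Pool.Agent.N996.BP.Geo (expo)
open Pool.Agent.Y133.Half (pw ClassPred Sys algSys Adj Ev tr_corr' xp corr_extOp)
open Pool.Agent.K6.H61.DH (Form IsPol)
open Pool.Agent.K6.H94.FG hiding RSub CSub complexSpan val

variable {k : Type u} [Field k] {𝒱 : VarClass k} {ops : CycleOps 𝒱} {T : HodgeTheory ops}
  {X Y Z A B : 𝒱.Obj}

variable (T) in
/-- The system of the Hodge classes. -/
noncomputable abbrev hs : Sys T.W := (AH.hodgePred (toH T)).sys

lemma hodgeClasses_eq : HodgeClasses T Y = (hs T).C Y := rfl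

lemma algClasses_eq (T : HodgeTheory ops) (Y : 𝒱.Obj) : AlgClasses T Y = (algSys T.W).C Y := by
  change AlgClasses T Y = Pool.Agent.H281R3.HT.algSpan T.W Y
  rw [AlgClasses, Pool.Agent.H281R3.HT.algSpan, spn]
  congr 1
  ext x
  rw [Set.mem_iUnion]
  constructor
  · rintro ⟨j, z, hz, rfl⟩; exact ⟨j, z, hz, rfl⟩
  · rintro ⟨j, z, hz, rfl⟩; exact ⟨j, z, hz, rfl⟩

lemma cor_eq (c : T.W.H (A.prod B)) (x : T.W.H A) : cor T c x = T.W.corr c x := rfl

lemma hodgeConj_iff : HodgeConj T Y ↔ (hs T).C Y ≤ (algSys T.W).C Y := by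
  rw [HodgeConj, FixedIn, hodgeClasses_eq, algClasses_eq]
  exact ⟨fun h x hx => h x hx rfl, fun h x hx _ => h hx⟩

lemma complexSpan_eq (V : RSub T Y) : complexSpan V = FG.complexSpan V := rfl

lemma alg_le_hodge : (algSys T.W).C Y ≤ (hs T).C Y := ClassPred.alg_le (Q := AH.hodgePred (toH T))

variable {q : Kernel T Z}

lemma corr_box : T.W.corr (box T q Y) =
    extOp T.W (T.W.corr q) (1 : Module.End T.W.K (T.W.H Y)) := by
  have h := Sys.corr_ext_class (W := T.W) (X := Z) (Y := Y) q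
    (d := T.W.push (diag Y) (1 : T.W.H Y))
    ((algSys T.W).even (Sys.diag_mem (S := algSys T.W)))
  rw [Sys.corr_diag_one] at h
  exact h

lemma IsAdmissible.mem (h : IsAdmissible T q) : q ∈ (algSys T.W).C (Z.prod Z) := by
  rw [← algClasses_eq]
  exact h.alg

/-- The subcategory `𝒞 ⊠ D^perf(Y)` is admissible. -/
theorem IsAdmissible.box (h : IsAdmissible T q) (Y : 𝒱.Obj) : IsAdmissible T (box T q Y) where
  alg := by
    rw [algClasses_eq]
    exact (algSys T.W).mul ((algSys T.W).map _ h.mem)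
      ((algSys T.W).map _ (Sys.diag_mem (S := algSys T.W)))
  idem := by
    intro x
    have h1 : (T.W.corr q : Module.End T.W.K (T.W.H Z)) * T.W.corr q = T.W.corr q := by
      apply LinearMap.ext
      intro z
      exact h.idem z
    have h2 := extOp_mul (W := T.W) (T.W.corr q : Module.End T.W.K (T.W.H Z)) (T.W.corr q)
      (1 : Module.End T.W.K (T.W.H Y)) 1
    rw [h1, one_mul] at h2
    rw [cor_eq, cor_eq, corr_box]
    exact congrArg (fun f : Module.End T.W.K (T.W.H (Z.prod Y)) => f x) h2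

/-- The classes in `𝒞 ⊠ D(Y)` as correspondences. -/
lemma has_box (hq : IsAdmissible T q) {x : T.W.H (Z.prod Y)} : cor T (NX.box T q Y) x = x ↔
    Geo.Fac (T := toH T) (T.W.map (swap Z Z) q) x := by
  rw [cor_eq, corr_box]
  have h2 := corr_extOp (W := T.W) (a := T.W.corr q) (a' := T.W.corr (T.W.map (swap Z Z) q))
    (tr_corr' ((algSys T.W).even hq.mem))
    (Sys.Op.ev (S := algSys T.W) (Sys.Op.corr ((algSys T.W).map _ hq.mem)))
    (b := (1 : Module.End T.W.K (T.W.H Y))) (Sys.Op.ev (S := algSys T.W) Sys.Op.id) x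
  constructor
  · intro h
    rw [h] at h2
    exact h2.symm
  · intro h
    have h3 : T.W.corr x ∘ₗ T.W.corr (T.W.map (swap Z Z) q) = T.W.corr x := h
    rw [h3] at h2
    exact FG.Geo.corr_eq_iff (W := T.W) h2

/-- The amplitude. -/
lemma ampLE_of (hq : IsAdmissible T q) {w : ℕ} (h : AmplitudeLE T q w) :
    Geo.AmpLE (T := toH T) q w := by
  intro n hn
  apply h n
  have h1 : Ktop T q = LinearMap.range (T.W.corr q) := by
    rw [Ktop, spn]
    apply le_antisymm
    · rw [Submodule.span_le]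
      intro x hx
      exact ⟨x, hx⟩
    · rintro _ ⟨y, rfl⟩
      exact Submodule.subset_span (hq.idem y)
  rw [HH, h1, complexSpan_eq, cs_eq]
  exact hn

/-- If the Euler pairing of `𝒞` is not zero, the Hodge conjecture for `Y` follows from the
noncommutative Hodge conjecture for `𝒞 ⊠ D(Y)`. -/
lemma hodge_of (hO : HasObject T q) (h : NCHodge T (box T q Y)) :
    (hs T).C Y ≤ (algSys T.W).C Y := by
  obtain ⟨x, hx, hxq, y, hy, hxy⟩ := hO
  rw [algClasses_eq] at hx hy
  intro c hc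
  have h1 : cor T (box T q Y) (T.W.map (fst Z Y) x * T.W.map (snd Z Y) c) =
      T.W.map (fst Z Y) x * T.W.map (snd Z Y) c := by
    rw [cor_eq] at hxq ⊢
    rw [corr_box, extOp_tmul, hxq]
    rfl
  have h2 := h _ ((hs T).mul ((hs T).map _ (alg_le_hodge hx)) ((hs T).map _ hc)) h1
  rw [algClasses_eq] at h2
  have h3 := (algSys T.W).push (snd Z Y) ((algSys T.W).mul ((algSys T.W).map (fst Z Y) hy) h2)
  rw [← mul_assoc, ← map_mul, T.W.push_snd] at h3
  have hyx : y * x = x * y := Pool.Agent.Y133.Half.PH.even_comm ((algSys T.W).even hy) x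
  rw [hyx] at h3
  have h4 := Submodule.smul_mem _ (T.W.tr Z (x * y))⁻¹ h3
  rwa [smul_smul, inv_mul_cancel₀ hxy, one_smul] at h4

/-- Correspondences given by algebraic classes preserve Hodge classes and algebraic classes. -/
lemma corr_mem (S : Sys T.W) (hS : ∀ Y, (algSys T.W).C Y ≤ S.C Y) {u : T.W.H (A.prod B)}
    (hu : u ∈ (algSys T.W).C (A.prod B)) {x : T.W.H A} (hx : x ∈ S.C A) : T.W.corr u x ∈ S.C B := by
  rw [corr_apply]
  exact S.push _ (S.mul (hS _ hu) (S.map _ hx))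

/-- **The noncommutative Hodge conjecture.** -/
theorem nch_main {ψ : Form T X} (hψ' : IsPol T X ψ) (w : ℕ) : ∃ N : ℕ, ∀ (Z : 𝒱.Obj)
    (q : Kernel T Z), IsAdmissible T q → AmplitudeLE T q w →
      (HasObject T q ∨ HodgeConj T (pw X N)) → NCHodge T (box T q (pw X N)) →
        (∀ n, NCHodge T (box T q (pw X n))) ∧
          ∀ (Y : 𝒱.Obj) (p : Kernel T Y), IsAdmissible T p → FromBoxes T q X p → NCHodge T p := by
  have hψ := polTo hψ'
  obtain ⟨N₀, h⟩ := Geo.cmp_idp (T := toH T) hψ.isPHS w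
  refine ⟨max N₀ (expo (finrank T.W.K (T.W.H X)) - 1), fun Z q hq hw hO hN => ?_⟩
  obtain ⟨N, hNdef⟩ : ∃ N, N = max N₀ (expo (finrank T.W.K (T.W.H X)) - 1) := ⟨_, rfl⟩
  rw [← hNdef] at hN hO
  have hq' : q ∈ (hs T).C (Z.prod Z) := alg_le_hodge hq.mem
  have h1 : (hs T).C (pw X N) ≤ (algSys T.W).C (pw X N) := by
    rcases hO with hO | hO
    · exact hodge_of hO hN
    · exact hodgeConj_iff.1 hO
  have h2 : ∀ m, (hs T).C (pw X m) ≤ (algSys T.W).C (pw X m) :=
    Geo.bounded_all (T := toH T) hψ.isPHS (by rw [hNdef]; exact le_max_right _ _) h1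
  have key : ∀ n, NCHodge T (box T q (pw X n)) := by
    intro n x hx hxq
    obtain ⟨r, α, β, hα, hβ, hid⟩ := h N (by rw [hNdef]; exact le_max_left _ _) n
    rw [algClasses_eq]
    rw [hodgeClasses_eq] at hx
    have hF := (has_box hq).1 hxq
    rw [← hid Z _ (Geo.wts_amp hq' (ampLE_of hq hw)) x hx hF]
    refine Submodule.sum_mem _ fun i _ => ?_
    refine Sys.comp_mem ?_ (FG.Geo.pw_prod (T := toH T) h2 _ _ (hα i))
    rw [← algClasses_eq]
    exact hN _ (Sys.comp_mem hx (hβ i)) ((has_box hq).2 (hF.cmp (hβ i)))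
  refine ⟨key, fun Y p _ hD => ?_⟩
  obtain ⟨r, m, u, v, huv, hid⟩ := hD
  intro y hy hyp
  rw [algClasses_eq, ← hid y hyp]
  refine Submodule.sum_mem _ fun i _ => ?_
  have hu := (huv i).1
  have hv := (huv i).2
  rw [algClasses_eq] at hu hv
  refine corr_mem _ (fun _ => le_rfl) hv ?_
  rw [← algClasses_eq]
  refine key (m i) _ ?_ ((hq.box _).idem _)
  exact corr_mem (hs T) (fun _ => alg_le_hodge) (hq.box _).mem
    (corr_mem (hs T) (fun _ => alg_le_hodge) hu hy)

lemma num_iff {x : T.W.H Y} : x ∈ (algSys T.W).Num Y ↔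
    x ∈ AlgClasses T Y ∧ ∀ y ∈ AlgClasses T Y, T.W.tr Y (x * y) = 0 := by
  rw [algClasses_eq]
  exact Iff.rfl

lemma corr_num {u : T.W.H (A.prod B)} (hu : u ∈ (algSys T.W).C (A.prod B)) {x : T.W.H A}
    (hx : x ∈ (algSys T.W).Num A) : T.W.corr u x ∈ (algSys T.W).Num B := by
  rw [corr_apply]
  exact Sys.Num.push _ (Sys.Num.mul' hu (Sys.Num.map _ hx))

/-- **The noncommutative standard conjecture of type `D`.** -/
theorem ncd_main {ψ : Form T X} (hψ' : IsPol T X ψ) (w : ℕ) : ∃ N : ℕ,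
    HodgeConj T (pw X N) → ∀ (Z : 𝒱.Obj) (q : Kernel T Z), IsAdmissible T q →
      AmplitudeLE T q w → NCStandardD T (box T q (pw X N)) →
        (∀ n, NCStandardD T (box T q (pw X n))) ∧
          ∀ (Y : 𝒱.Obj) (p : Kernel T Y), IsAdmissible T p → FromBoxes T q X p →
            NCStandardD T p := by
  have hψ := polTo hψ'
  obtain ⟨N₀, h⟩ := Geo.cmp_idp (T := toH T) hψ.isPHS w
  refine ⟨max N₀ (expo (finrank T.W.K (T.W.H X)) - 1), fun hO Z q hq hw hN => ?_⟩
  obtain ⟨N, hNdef⟩ : ∃ N, N = max N₀ (expo (finrank T.W.K (T.W.H X)) - 1) := ⟨_, rfl⟩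
  rw [← hNdef] at hN hO
  have hq' : q ∈ (hs T).C (Z.prod Z) := alg_le_hodge hq.mem
  have h1 : (hs T).C (pw X N) ≤ (algSys T.W).C (pw X N) := hodgeConj_iff.1 hO
  have h2 : ∀ m, (hs T).C (pw X m) ≤ (algSys T.W).C (pw X m) :=
    Geo.bounded_all (T := toH T) hψ.isPHS (by rw [hNdef]; exact le_max_right _ _) h1
  have key : ∀ n, NCStandardD T (box T q (pw X n)) := by
    intro n x hx hxq hx0
    obtain ⟨r, α, β, hα, hβ, hid⟩ := h N (by rw [hNdef]; exact le_max_left _ _) n
    have hF := (has_box hq).1 hxq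
    have hx' : x ∈ (hs T).C (Z.prod (pw X n)) := by
      rw [algClasses_eq] at hx
      exact alg_le_hodge hx
    have hnum := num_iff.2 ⟨hx, hx0⟩
    rw [← hid Z _ (Geo.wts_amp hq' (ampLE_of hq hw)) x hx' hF]
    refine Finset.sum_eq_zero fun i _ => ?_
    have hβ' := FG.Geo.pw_prod (T := toH T) h2 _ _ (hβ i)
    have h3 : FG.Geo.cmp (W := T.W) x (β i) ∈ (algSys T.W).Num (Z.prod (pw X N)) :=
      Sys.Num.push _ (Sys.Num.mul (Sys.Num.map _ hnum) ((algSys T.W).map _ hβ'))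
    have h4 := num_iff.1 h3
    have h5 : FG.Geo.cmp (W := T.W) x (β i) = 0 :=
      hN _ h4.1 ((has_box hq).2 (hF.cmp (hβ i))) h4.2
    have h6 : FG.Geo.cmp (W := T.W) (0 : T.W.H (Z.prod (pw X N))) (α i) = 0 := by
      change T.W.push _ (T.W.map _ (0 : T.W.H (Z.prod (pw X N))) * _) = 0
      rw [map_zero, zero_mul, map_zero]
    exact (congrArg (fun z => FG.Geo.cmp (W := T.W) z (α i)) h5).trans h6
  refine ⟨key, fun Y p _ hD => ?_⟩
  obtain ⟨r, m, u, v, huv, hid⟩ := hD
  intro y hy hyp hy0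
  rw [← hid y hyp]
  refine Finset.sum_eq_zero fun i _ => ?_
  have hu := (huv i).1
  rw [algClasses_eq] at hu
  have h3 : T.W.corr (box T q (pw X (m i))) (T.W.corr (u i) y) ∈ (algSys T.W).Num _ :=
    corr_num (hq.box _).mem (corr_num hu (num_iff.2 ⟨hy, hy0⟩))
  have h4 := num_iff.1 h3
  have h5 := key (m i) _ h4.1 ((hq.box _).idem _) h4.2
  rw [cor_eq, cor_eq, cor_eq, h5, map_zero]

end Pool.Agent.K6.H94.NX
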